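import Mathlib

/-! # OLB, part GA: automorphisms of an algebraically closed field move every element outside the base -/

set_option autoImplicit false
set_option linter.unusedSectionVars false

open Polynomial

namespace Pool.Agent.Helper94.OLB

/-- GA -/
theorem exists_aut {K₀ K : Type} [Field K₀] [Field K] [CharZero K₀] [Algebra K₀ K] [IsAlgClosed K]
    {c : K} (hc : c ∉ Set.range (algebraMap K₀ K)) : ∃ σ : K ≃ₐ[K₀] K, σ c ≠ c := by
  classical
  obtain ⟨L, -, hL⟩ := zorn_le_nonempty₀ {L : IntermediateField K₀ K | c ∉ L} (by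
    intro C hC hch y hy
    haveI : Nonempty C := ⟨⟨y, hy⟩⟩
    have hd : Directed (· ≤ ·) (fun L : C => (L : IntermediateField K₀ K)) :=
      hch.directedOn.directed_val
    refine ⟨⨆ L : C, (L : IntermediateField K₀ K), ?_,
      fun z hz => le_iSup (fun L : C => (L : IntermediateField K₀ K)) ⟨z, hz⟩⟩
    intro hmem
    rw [← SetLike.mem_coe, IntermediateField.coe_iSup_of_directed hd, Set.mem_iUnion] at hmem
    obtain ⟨⟨M, hM⟩, hcM⟩ := hmem
    exact hC hM hcM) ⊥ (by
      intro h
      exact hc (IntermediateField.mem_bot.1 h))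
  have hcL : c ∉ L := hL.prop
  have hc0 : c ≠ 0 := fun h => hcL (h ▸ L.zero_mem)
  have hmax : ∀ t : K, t ∉ L → c ∈ IntermediateField.adjoin L ({t} : Set K) := by
    intro t ht
    by_contra hct
    have hle : L ≤ (IntermediateField.adjoin L ({t} : Set K)).restrictScalars K₀ := by
      intro x hx
      rw [IntermediateField.mem_restrictScalars]
      exact IntermediateField.algebraMap_mem _ (⟨x, hx⟩ : L)
    have h2 : (IntermediateField.adjoin L ({t} : Set K)).restrictScalars K₀ ≤ L := by
      refine hL.le_of_ge ?_ hle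
      show c ∉ _
      rw [IntermediateField.mem_restrictScalars]
      exact hct
    exact ht (h2 (by
      rw [IntermediateField.mem_restrictScalars]
      exact IntermediateField.mem_adjoin_simple_self L t))
  have hfrac : ∀ t : K, t ∉ L → ∃ r s : L[X], s ≠ 0 ∧ c * aeval t s = aeval t r := by
    intro t ht
    obtain ⟨r, s, hrs⟩ := (IntermediateField.mem_adjoin_simple_iff L c).1 (hmax t ht)
    have hs : aeval t s ≠ 0 := by
      intro h
      rw [h, div_zero] at hrs
      exact hc0 hrs
    refine ⟨r, s, fun h => hs (by rw [h, map_zero]), ?_⟩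
    rw [hrs, div_mul_cancel₀ _ hs]
  -- `c` is algebraic over `L`
  have halg : IsAlgebraic L c := by
    by_contra htr
    have hc2 : c ^ 2 ∉ L := by
      intro h
      apply htr
      refine ⟨X ^ 2 - C (⟨c ^ 2, h⟩ : L), ?_, ?_⟩
      · exact (monic_X_pow_sub_C _ two_ne_zero).ne_zero
      · rw [map_sub, map_pow, aeval_X, aeval_C]
        exact sub_self _
    obtain ⟨r, s, hs, hrs⟩ := hfrac _ hc2
    have hP : aeval c (X * expand L 2 s - expand L 2 r) = 0 := by
      rw [map_sub, map_mul, aeval_X, expand_aeval, expand_aeval, hrs, sub_self]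
    have hP0 : X * expand L 2 s - expand L 2 r = 0 := by
      by_contra h
      exact htr ⟨_, h, hP⟩
    apply hs
    ext k
    have e := congrArg (fun p : L[X] => p.coeff (2 * k + 1)) (sub_eq_zero.1 hP0)
    simp only [coeff_X_mul, coeff_expand two_pos] at e
    rw [if_pos (Dvd.intro k rfl), if_neg (by omega), Nat.mul_div_cancel_left k two_pos] at e
    rw [e, coeff_zero]
  -- `K` is algebraic over `L`
  haveI hKL : Algebra.IsAlgebraic L K := by
    refine ⟨fun t => ?_⟩
    by_contra htr
    have ht : t ∉ L := fun h => htr (isAlgebraic_algebraMap (⟨t, h⟩ : L))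
    obtain ⟨r, s, hs, hrs⟩ := hfrac t ht
    haveI : Algebra.IsAlgebraic L (IntermediateField.adjoin L ({c} : Set K)) :=
      IntermediateField.isAlgebraic_adjoin_simple halg.isIntegral
    have htr' : ¬ IsAlgebraic (IntermediateField.adjoin L ({c} : Set K)) t :=
      fun h => htr (IsAlgebraic.restrictScalars L h)
    set E := IntermediateField.adjoin L ({c} : Set K) with hE
    have hcE : c ∈ E := IntermediateField.mem_adjoin_simple_self L c
    have hP : aeval t (C (⟨c, hcE⟩ : E) * s.map (algebraMap L E) - r.map (algebraMap L E)) = 0 := by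
      rw [map_sub, map_mul, aeval_C, aeval_map_algebraMap, aeval_map_algebraMap]
      have : algebraMap E K ⟨c, hcE⟩ = c := rfl
      rw [this, hrs, sub_self]
    have hP0 : C (⟨c, hcE⟩ : E) * s.map (algebraMap L E) - r.map (algebraMap L E) = 0 := by
      by_contra h
      exact htr' ⟨_, h, hP⟩
    obtain ⟨i, hi⟩ : ∃ i, s.coeff i ≠ 0 := by
      by_contra h
      push Not at h
      exact hs (Polynomial.ext fun i => by rw [h i, coeff_zero])
    have e := congrArg (fun p : E[X] => p.coeff i) (sub_eq_zero.1 hP0)
    simp only [coeff_C_mul, coeff_map] at e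
    have e' : c * (s.coeff i : K) = (r.coeff i : K) := congrArg (fun x : E => (x : K)) e
    apply hcL
    have hi' : (s.coeff i : K) ≠ 0 := fun h => hi (Subtype.ext h)
    have : c = (r.coeff i : K) / (s.coeff i : K) := by
      rw [← e', mul_div_cancel_right₀ _ hi']
    rw [this]
    exact L.div_mem (r.coeff i).2 (s.coeff i).2
  haveI : CharZero L := charZero_of_injective_algebraMap (algebraMap K₀ L).injective
  haveI : IsAlgClosure L K := ⟨inferInstance, hKL⟩
  haveI : Normal L K := IsAlgClosure.normal L K
  haveI : IsGalois L K := {}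
  by_contra hno
  push Not at hno
  have hfix : c ∈ Set.range (algebraMap L K) := by
    rw [InfiniteGalois.mem_range_algebraMap_iff_fixed]
    intro σ
    exact hno (AlgEquiv.restrictScalars K₀ σ)
  obtain ⟨x, hx⟩ := hfix
  exact hcL (hx ▸ x.2)

end Pool.Agent.Helper94.OLB
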