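import Pool.Agent.Helper22.DT.SC

/-! # OLB, part SL: a line through the generic point, scaled to a generic point of the cone -/

set_option autoImplicit false
set_option linter.unusedSectionVars false

open Polynomial Finset DirectSum

namespace Pool.Agent.Helper94.OLB

open Pool.Agent.Helper766_CF Pool.Agent.Helper766_CG Pool.Agent.Helper766_CH
open Pool.Agent.Helper58.CS Pool.Agent.Helper58.OP Pool.Agent.Helper58.SH Pool.Agent.Helper58.BG
open Pool.Agent.Helper58.LC Pool.Agent.Helper58.NS Pool.Agent.Helper17.DT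
open Pool.Agent.Helper22.DT

variable {R : Type} [CommRing R] [Algebra ℂ R] {𝒜 : ℕ → Submodule ℂ R} [GradedAlgebra 𝒜]
  {k : Type} [Field k] [Algebra ℂ k]

lemma scale_line_aux {K : Type} [Field K] [Algebra ℂ K] (j : k →ₐ[ℂ] K) (lam : K)
    (hlam : ∀ p : k[X], p.eval₂ (j : k →+* K) lam = 0 → p = 0)
    {f₁ : R →ₐ[ℂ] k[X]}
    (hf₁ : IsCurve 𝒜 K 1 (mapC j f₁))
    (hgen : ∀ d, ∀ a ∈ 𝒜 d, (f₁ a).coeff 0 = 0 → a = 0) :
    ∃ F₁ : R →ₐ[ℂ] K[X], IsCurve 𝒜 K 1 F₁ ∧ (Function.Injective fun r => (F₁ r).coeff 0) := by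
  have hl : lam ≠ 0 := by
    rintro rfl
    have := hlam X (by simp)
    exact X_ne_zero this
  have hc : ∀ (f : R →ₐ[ℂ] k[X]) {d : ℕ} {a : R} (_ : a ∈ 𝒜 d) (i : ℕ),
      (sc 𝒜 lam (mapC j f) a).coeff i = j ((f a).coeff i) * lam ^ d := by
    intro f d a ha i
    rw [coeff_sc lam _ ha]
    congr 1
    change ((f a).map (j : k →+* K)).coeff i = _
    rw [coeff_map]
    rfl
  refine ⟨sc 𝒜 lam (mapC j f₁), sc_curve hl hf₁, ?_⟩
  have hP : ∀ r, (sc 𝒜 lam (mapC j f₁) r).coeff 0 =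
      ((gr 𝒜 r).map (((Polynomial.constantCoeff (R := k)).comp (f₁ : R →+* k[X])))).eval₂
        (j : k →+* K) lam := by
    intro r
    refine hom_induction 𝒜 (P := fun r => (sc 𝒜 lam (mapC j f₁) r).coeff 0 =
      ((gr 𝒜 r).map (((Polynomial.constantCoeff (R := k)).comp (f₁ : R →+* k[X])))).eval₂
        (j : k →+* K) lam) r (by simp) ?_ ?_
    · intro d a ha
      rw [hc f₁ ha, gr_of_mem 𝒜 ha, Polynomial.map_mul, Polynomial.map_C, Polynomial.map_pow,
        Polynomial.map_X, eval₂_mul, eval₂_C, eval₂_pow, eval₂_X]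
      rfl
    · intro a b ha hb
      rw [map_add, map_add, coeff_add, ha, hb, Polynomial.map_add, eval₂_add]
  have hz : ∀ r, (sc 𝒜 lam (mapC j f₁) r).coeff 0 = 0 → r = 0 := by
    intro r hr
    rw [hP] at hr
    have h1 := hlam _ hr
    refine ext_pr 𝒜 fun d => ?_
    rw [map_zero]
    refine hgen d _ (pr_mem 𝒜 d r) ?_
    have h2 := congrArg (fun p : k[X] => p.coeff d) h1
    simpa [coeff_gr] using h2
  intro a b hab
  have h1 : (sc 𝒜 lam (mapC j f₁) (a - b)).coeff 0 = 0 := by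
    rw [map_sub, coeff_sub]
    exact sub_eq_zero.2 hab
  exact sub_eq_zero.1 (hz _ h1)

/-- SL -/
theorem scale_line [IsAlgClosed k] {f : R →ₐ[ℂ] k[X]} (hf : IsCurve 𝒜 k 1 f)
    (hgen : ∀ d, ∀ a ∈ 𝒜 d, (f a).coeff 0 = 0 → a = 0) :
    ∃ (K : Type) (_ : Field K) (_ : Algebra ℂ K) (_ : IsAlgClosed K) (F : R →ₐ[ℂ] K[X]),
      IsCurve 𝒜 K 1 F ∧ Function.Injective fun r => (F r).coeff 0 := by
  let j0 : k[X] →ₐ[ℂ] AlgebraicClosure (FractionRing k[X]) :=
    (IsScalarTower.toAlgHom ℂ (FractionRing k[X]) (AlgebraicClosure (FractionRing k[X]))).comp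
      (IsScalarTower.toAlgHom ℂ k[X] (FractionRing k[X]))
  have hj0 : Function.Injective j0 := by
    have h1 : Function.Injective (algebraMap (FractionRing k[X])
      (AlgebraicClosure (FractionRing k[X]))) := RingHom.injective _
    have h2 : Function.Injective (algebraMap k[X] (FractionRing k[X])) :=
      IsFractionRing.injective _ _
    exact h1.comp h2
  let j : k →ₐ[ℂ] AlgebraicClosure (FractionRing k[X]) := j0.comp (Polynomial.CAlgHom (R := ℂ))
  have hev : ∀ p : k[X], p.eval₂ (j : k →+* AlgebraicClosure (FractionRing k[X])) (j0 X) = j0 p := by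
    intro p
    have h1 := Polynomial.hom_eval₂ p (Polynomial.C : k →+* k[X])
      (j0 : k[X] →+* AlgebraicClosure (FractionRing k[X])) X
    rw [eval₂_C_X] at h1
    exact h1.symm
  obtain ⟨F₁, h⟩ := scale_line_aux j (j0 X)
    (fun p hp => by
      rw [hev] at hp
      exact (map_eq_zero_iff _ hj0).1 hp)
    (Pool.Agent.Helper54.DT.map_curve j hf) hgen
  exact ⟨AlgebraicClosure (FractionRing k[X]), inferInstance, inferInstance, inferInstance,
    F₁, h⟩

end Pool.Agent.Helper94.OLB
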